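import Pool.Agent.BEH.Stmts

/-! BEH, row EXT: extension by zero. -/

namespace Pool.Agent.BEH.H10

open Set Filter Topology MeasureTheory
open scoped InnerProductSpace ENNReal
open Pool.Agent.BE01 Pool.Agent.BEL Pool.Agent.BEH

noncomputable section

variable {d : ℕ}

theorem mu_restrict {Ω Ω' : Set (En d)} (hm : MeasurableSet Ω') (hs : Ω' ⊆ Ω) :
    (mu Ω).restrict Ω' = mu Ω' := by
  unfold mu
  rw [Measure.restrict_restrict hm, inter_eq_left.mpr hs]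

theorem ind_ae {H : Type} [NormedAddCommGroup H] {Ω Ω' : Set (En d)} (hm : MeasurableSet Ω')
    (hs : Ω' ⊆ Ω) {f g : En d → H} (h : f =ᵐ[mu Ω'] g) :
    Ω'.indicator f =ᵐ[mu Ω] Ω'.indicator g := by
  rw [← mu_restrict hm hs, Filter.EventuallyEq, ae_restrict_iff' hm] at h
  filter_upwards [h] with x hx
  by_cases hxm : x ∈ Ω'
  · rw [indicator_of_mem hxm, indicator_of_mem hxm, hx hxm]
  · rw [indicator_of_notMem hxm, indicator_of_notMem hxm]

theorem memLp_ind {H : Type} [NormedAddCommGroup H] {Ω Ω' : Set (En d)}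
    (hm : MeasurableSet Ω') (hs : Ω' ⊆ Ω) {f : En d → H} (hf : MemLp f 2 (mu Ω')) :
    MemLp (Ω'.indicator f) 2 (mu Ω) := by
  rw [memLp_indicator_iff_restrict hm, mu_restrict hm hs]
  exact hf

/-- extension by zero -/
def ex0 (H : Type) [NormedAddCommGroup H] [NormedSpace ℝ H] {Ω Ω' : Set (En d)}
    (hm : MeasurableSet Ω') (hs : Ω' ⊆ Ω) : Lp H 2 (mu Ω') →ₗᵢ[ℝ] Lp H 2 (mu Ω) where
  toFun u := (memLp_ind hm hs (Lp.memLp u)).toLp (Ω'.indicator u)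
  map_add' u v := by
    apply Lp.ext
    refine (MemLp.coeFn_toLp _).trans ?_
    refine EventuallyEq.trans ?_ (Lp.coeFn_add _ _).symm
    refine (ind_ae hm hs (Lp.coeFn_add u v)).trans ?_
    filter_upwards [MemLp.coeFn_toLp (memLp_ind hm hs (Lp.memLp u)),
      MemLp.coeFn_toLp (memLp_ind hm hs (Lp.memLp v))] with x h1 h2
    rw [Pi.add_apply, h1, h2, indicator_add']
    rfl
  map_smul' c u := by
    apply Lp.ext
    refine (MemLp.coeFn_toLp _).trans ?_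
    refine EventuallyEq.trans ?_ (Lp.coeFn_smul _ _).symm
    refine (ind_ae hm hs (Lp.coeFn_smul c u)).trans ?_
    filter_upwards [MemLp.coeFn_toLp (memLp_ind hm hs (Lp.memLp u))] with x h1
    rw [RingHom.id_apply, Pi.smul_apply, h1]
    by_cases hxm : x ∈ Ω'
    · rw [indicator_of_mem hxm, indicator_of_mem hxm, Pi.smul_apply]
    · rw [indicator_of_notMem hxm, indicator_of_notMem hxm, smul_zero]
  norm_map' u := by
    show ‖(memLp_ind hm hs (Lp.memLp u)).toLp (Ω'.indicator u)‖ = ‖u‖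
    rw [Lp.norm_toLp, eLpNorm_indicator_eq_eLpNorm_restrict hm, mu_restrict hm hs, Lp.norm_def]

theorem ex0_ae (H : Type) [NormedAddCommGroup H] [NormedSpace ℝ H] {Ω Ω' : Set (En d)}
    (hm : MeasurableSet Ω') (hs : Ω' ⊆ Ω) (u : Lp H 2 (mu Ω')) :
    (ex0 H hm hs u : En d → H) =ᵐ[mu Ω] Ω'.indicator u :=
  MemLp.coeFn_toLp (memLp_ind hm hs (Lp.memLp u))

theorem tst_mono {Ω Ω' : Set (En d)} (hs : Ω' ⊆ Ω) {ψ : En d → ℝ} (h : Tst Ω' ψ) : Tst Ω ψ :=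
  ⟨h.1, h.2.1, h.2.2.trans hs⟩

theorem tst_ind {Ω' : Set (En d)} {ψ : En d → ℝ} (h : Tst Ω' ψ) : Ω'.indicator ψ = ψ := by
  ext x
  by_cases hx : x ∈ Ω'
  · rw [indicator_of_mem hx]
  · rw [indicator_of_notMem hx]
    exact (image_eq_zero_of_notMem_tsupport (fun hc => hx (h.2.2 hc))).symm

theorem grad_ind {Ω' : Set (En d)} {ψ : En d → ℝ} (h : Tst Ω' ψ) :
    Ω'.indicator (gradient ψ) = gradient ψ := by
  ext1 x
  by_cases hx : x ∈ Ω'
  · rw [indicator_of_mem hx]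
  · rw [indicator_of_notMem hx]
    have h1 : fderiv ℝ ψ x = 0 := by
      by_contra hc
      exact hx (h.2.2 (support_fderiv_subset ℝ hc))
    unfold gradient
    rw [h1, map_zero]

theorem ex0_grad {Ω Ω' : Set (En d)} (hm : MeasurableSet Ω') (hs : Ω' ⊆ Ω) {ψ : En d → ℝ}
    (h : Tst Ω' ψ) {G : Lp (En d) 2 (mu Ω')} (hG : G =ᵐ[mu Ω'] gradient ψ) :
    (ex0 (En d) hm hs G : En d → En d) =ᵐ[mu Ω] gradient ψ := by
  have h1 := (ex0_ae (En d) hm hs G).trans (ind_ae hm hs hG)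
  rwa [grad_ind h] at h1

theorem ex0_mem {Ω Ω' : Set (En d)} (hm : MeasurableSet Ω') (hs : Ω' ⊆ Ω)
    {G : Lp (En d) 2 (mu Ω')} (hG : G ∈ VV Ω') : ex0 (En d) hm hs G ∈ VV Ω := by
  have hgen : ∀ s : Lp (En d) 2 (mu Ω'), s ∈ Submodule.span ℝ
      {G : Lp (En d) 2 (mu Ω') | ∃ ψ, Tst Ω' ψ ∧ G =ᵐ[mu Ω'] gradient ψ} →
      ex0 (En d) hm hs s ∈ VV Ω := by
    intro s hsp
    refine Submodule.span_induction (p := fun s _ => ex0 (En d) hm hs s ∈ VV Ω) ?_ ?_ ?_ ?_ hsp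
    · rintro G ⟨ψ, hψ, hGψ⟩
      exact Submodule.le_topologicalClosure _
        (Submodule.subset_span ⟨ψ, tst_mono hs hψ, ex0_grad hm hs hψ hGψ⟩)
    · rw [map_zero]
      exact zero_mem _
    · intro x y hx hy ihx ihy
      rw [map_add]
      exact add_mem ihx ihy
    · intro c x hx ihx
      rw [map_smul]
      exact Submodule.smul_mem _ _ ihx
  have hG' : G ∈ closure ((Submodule.span ℝ
      {G : Lp (En d) 2 (mu Ω') | ∃ ψ, Tst Ω' ψ ∧ G =ᵐ[mu Ω'] gradient ψ} :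
      Submodule ℝ (Lp (En d) 2 (mu Ω'))) : Set (Lp (En d) 2 (mu Ω'))) := hG
  obtain ⟨s, hs1, hs2⟩ := mem_closure_iff_seq_limit.mp hG'
  have hcl : IsClosed ((VV Ω : Submodule ℝ (Lp (En d) 2 (mu Ω))) : Set (Lp (En d) 2 (mu Ω))) :=
    Submodule.isClosed_topologicalClosure _
  have hlim : Tendsto (fun n => ex0 (En d) hm hs (s n)) atTop (𝓝 (ex0 (En d) hm hs G)) :=
    ((ex0 (En d) hm hs).continuous.tendsto G).comp hs2
  exact hcl.mem_of_tendsto hlim (Eventually.of_forall (fun n => hgen (s n) (hs1 n)))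

/-- the extension of gradients -/
def exV {Ω Ω' : Set (En d)} (hm : MeasurableSet Ω') (hs : Ω' ⊆ Ω) : VV Ω' →ₗᵢ[ℝ] VV Ω where
  toLinearMap := ((ex0 (En d) hm hs).toLinearMap.comp (VV Ω').subtype).codRestrict (VV Ω)
    (fun G => ex0_mem hm hs G.2)
  norm_map' G := by
    show ‖ex0 (En d) hm hs (G : Lp (En d) 2 (mu Ω'))‖ = ‖(G : Lp (En d) 2 (mu Ω'))‖
    exact (ex0 (En d) hm hs).norm_map _

theorem exV_coe {Ω Ω' : Set (En d)} (hm : MeasurableSet Ω') (hs : Ω' ⊆ Ω) (G : VV Ω') :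
    ((exV hm hs G : VV Ω) : Lp (En d) 2 (mu Ω)) = ex0 (En d) hm hs (G : Lp (En d) 2 (mu Ω')) :=
  rfl

theorem ext : ExtStmt := by
  intro d Ω Ω' ι ι' hΩ hΩ' hs hι hι'
  have hm : MeasurableSet Ω' := hΩ'.1.measurableSet
  refine ⟨ex0 ℝ hm hs, exV hm hs, fun u => ex0_ae ℝ hm hs u, fun G => ?_, ?_⟩
  · rw [exV_coe]
    exact ex0_ae (En d) hm hs _
  · have hspan : ∀ s : Lp (En d) 2 (mu Ω'), s ∈ Submodule.span ℝ
        {G : Lp (En d) 2 (mu Ω') | ∃ ψ, Tst Ω' ψ ∧ G =ᵐ[mu Ω'] gradient ψ} →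
        ∀ h : s ∈ VV Ω', ι (exV hm hs ⟨s, h⟩) = ex0 ℝ hm hs (ι' ⟨s, h⟩) := by
      intro s hsp
      refine Submodule.span_induction (p := fun s _ => ∀ h : s ∈ VV Ω',
        ι (exV hm hs ⟨s, h⟩) = ex0 ℝ hm hs (ι' ⟨s, h⟩)) ?_ ?_ ?_ ?_ hsp
      · rintro G ⟨ψ, hψ, hGψ⟩ h
        apply Lp.ext
        have h1 : (ι (exV hm hs ⟨G, h⟩) : En d → ℝ) =ᵐ[mu Ω] ψ :=
          hι ψ (tst_mono hs hψ) _ (ex0_grad hm hs hψ hGψ)
        have h2 := (ex0_ae ℝ hm hs (ι' ⟨G, h⟩)).trans (ind_ae hm hs (hι' ψ hψ ⟨G, h⟩ hGψ))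
        rw [tst_ind hψ] at h2
        exact h1.trans h2.symm
      · intro h
        have h0 : (⟨0, h⟩ : VV Ω') = 0 := rfl
        rw [h0, map_zero, map_zero, map_zero, map_zero]
      · intro x y hx hy ihx ihy h
        have hx' : x ∈ VV Ω' := Submodule.le_topologicalClosure _ hx
        have hy' : y ∈ VV Ω' := Submodule.le_topologicalClosure _ hy
        have h0 : (⟨x + y, h⟩ : VV Ω') = ⟨x, hx'⟩ + ⟨y, hy'⟩ := rfl
        rw [h0, map_add, map_add, map_add, map_add, ihx hx', ihy hy']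
      · intro c x hx ihx h
        have hx' : x ∈ VV Ω' := Submodule.le_topologicalClosure _ hx
        have h0 : (⟨c • x, h⟩ : VV Ω') = c • ⟨x, hx'⟩ := rfl
        rw [h0, map_smul, map_smul, map_smul, map_smul, ihx hx']
    intro G
    have hG : (G : Lp (En d) 2 (mu Ω')) ∈ closure ((Submodule.span ℝ
        {G : Lp (En d) 2 (mu Ω') | ∃ ψ, Tst Ω' ψ ∧ G =ᵐ[mu Ω'] gradient ψ} :
        Submodule ℝ (Lp (En d) 2 (mu Ω'))) : Set (Lp (En d) 2 (mu Ω'))) := G.2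
    obtain ⟨s, hs1, hs2⟩ := mem_closure_iff_seq_limit.mp hG
    have hsV : ∀ n, s n ∈ VV Ω' := fun n => Submodule.le_topologicalClosure _ (hs1 n)
    have hlim : Tendsto (fun n => (⟨s n, hsV n⟩ : VV Ω')) atTop (𝓝 G) := by
      rw [tendsto_subtype_rng]
      exact hs2
    have hA : Tendsto (fun n => ι (exV hm hs ⟨s n, hsV n⟩)) atTop (𝓝 (ι (exV hm hs G))) :=
      ((ι.continuous.comp (exV hm hs).continuous).tendsto G).comp hlim
    have hB : Tendsto (fun n => ex0 ℝ hm hs (ι' ⟨s n, hsV n⟩)) atTop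
        (𝓝 (ex0 ℝ hm hs (ι' G))) :=
      (((ex0 ℝ hm hs).continuous.comp ι'.continuous).tendsto G).comp hlim
    have hAB : (fun n => ι (exV hm hs ⟨s n, hsV n⟩)) =
        fun n => ex0 ℝ hm hs (ι' ⟨s n, hsV n⟩) := by
      funext n
      exact hspan (s n) (hs1 n) (hsV n)
    rw [hAB] at hA
    exact tendsto_nhds_unique hA hB

end

end Pool.Agent.BEH.H10
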